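import Pool.Agent.H95.DR.Targets

/-!
# MP_52e316_nt, dihedral Maass forms, row AL0: the lattices of index one
-/

set_option autoImplicit false

open MeasureTheory Set Filter NumberField
open scoped Real nonZeroDivisors Matrix MatrixGroups

namespace Pool.Agent.H54.DF

open Pool.Agent.H31.CN Pool.Agent.H89.FM Pool.Agent.H61.FM Pool.Agent.H89.FC Pool.Agent.H95.FC
  Pool.Agent.H89.DF Pool.Agent.H95.DR

theorem pf_LS1 (hFLS : Pool.Agent.H89.FM.T_FLS) : T_LS1 := by
  intro Q
  classical
  ext L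
  rw [Finset.mem_filter, Finset.mem_singleton, (hFLS 1 L le_rfl).1, AddSubgroup.index_eq_one]
  refine ⟨fun h => h.1, fun h => ⟨h, fun v _ => ?_⟩⟩
  rw [Nat.cast_one]
  exact one_dvd _

end Pool.Agent.H54.DF
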