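import Pool.Agent.H61.DF.Targets
import Pool.Agent.H92.FM.FMS

/-!
# MP_52e316_nt, row NFS: the fourth moment at a point near the critical line, complete family,
bounded spectral parameters (real quadratic fields)
-/

set_option autoImplicit false

open MeasureTheory Set Filter NumberField
open scoped Real nonZeroDivisors

namespace Pool.Agent.H54.DF

open Pool.Agent.H31.CN Pool.Agent.H89.FM Pool.Agent.H61.FM Pool.Agent.H89.FC Pool.Agent.H89.DF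
  Pool.Agent.H61.DF

open Pool.Agent.H92.FM (gam_int sq_int sq_le)

theorem pf_FMSr (hMOT : T_MOTr) (hPBD : T_PBDr) (hSPT : T_SPTr) : T_FMSr := by
  intro ε hε
  obtain ⟨κ0, hκ0, hκ8, hM⟩ := hMOT (ε / 3) (by positivity)
  obtain ⟨C1, k1, j, c, hC1, hc, hP⟩ := hPBD
  obtain ⟨C2, k2, hC2, hM2⟩ := hM c j hc
  obtain ⟨C0, hC0, hS⟩ := hSPT
  obtain ⟨κ, hκ⟩ : ∃ κ, κ = min κ0 (ε / 8) := ⟨_, rfl⟩
  have hκpos : 0 < κ := by rw [hκ]; exact lt_min hκ0 (by positivity)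
  have hκκ : κ ≤ κ0 := by rw [hκ]; exact min_le_left _ _
  have hκε : κ ≤ ε / 8 := by rw [hκ]; exact min_le_right _ _
  have hκle : κ ≤ 1 / 8 := hκκ.trans hκ8
  obtain ⟨a, ha⟩ : ∃ a, a = 4 * κ + ε / 3 := ⟨_, rfl⟩
  have hapos : 0 < a := by rw [ha]; positivity
  have hΓ : 0 < Real.Gamma a := Real.Gamma_pos_of_pos hapos
  have hca : 0 < (c⁻¹) ^ a := Real.rpow_pos_of_pos (by positivity) _
  refine ⟨κ, hκpos, hκle, C1 ^ 2 * (1 / (2 * κ)) * C2 * (c⁻¹ ^ a * Real.Gamma a),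
    2 * k1 + k2 + j * ⌈a⌉₊, by positivity, ?_⟩
  intro s X V K _ _ σ σ' S f κ' ν F hs hX hV hF
  obtain ⟨T, hT⟩ : ∃ T, T = 1 + |s.im| + V := ⟨_, rfl⟩
  have hT1 : 1 ≤ T := by rw [hT]; linarith [abs_nonneg s.im]
  have hT0 : 0 < T := by linarith
  have hX0 : 0 < X := by linarith
  obtain ⟨q, hq⟩ : ∃ q, q = Real.sqrt X * T ^ j := ⟨_, rfl⟩
  have hq0 : 0 < q := by rw [hq]; positivity
  rw [← hT]
  have hM3 : ∀ x : ℝ, 1 ≤ x → (∑ y ∈ S, ‖Sc y.2 x‖ ^ 2 * ‖F y s‖ ^ 2) *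
      Real.exp (-(c * x / q)) ≤ C2 * T ^ k2 * X ^ (3 / 2 + ε / 3) * x ^ (1 + ε / 3) := by
    intro x hx
    rw [hq, hT]
    exact hM2 s X V x K σ σ' S f κ' ν F (hs.trans hκκ) hX hV hx hF
  have hint : ∀ y ∈ S, IntegrableOn (fun x : ℝ =>
      ‖Sc y.2 x‖ ^ 2 * ‖F y s‖ ^ 2 * (x ^ (-2 + 4 * κ) * Real.exp (-(c * x / q)) ^ 2))
      (Ioi 1) := by
    intro y hy
    obtain ⟨h1, h2⟩ := hS (K y.1) (σ y.1) (σ' y.1) y.1 (f y) (κ' y) (ν y) y.2 (hF.rq y hy)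
      (hF.ch y hy)
    have h3 : IntegrableOn (fun x : ℝ => ‖F y s‖ ^ 2 * (‖Sc y.2 x‖ ^ 2 *
        (x ^ (-2 + 4 * κ) * Real.exp (-(c * x / q)) ^ 2))) (Ioi 1) :=
      (sq_int h1 h2 hκpos hc hq0).const_mul _
    refine h3.congr_fun ?_ measurableSet_Ioi
    intro x _
    show ‖F y s‖ ^ 2 * (‖Sc y.2 x‖ ^ 2 *
        (x ^ (-2 + 4 * κ) * Real.exp (-(c * x / q)) ^ 2)) =
      ‖Sc y.2 x‖ ^ 2 * ‖F y s‖ ^ 2 * (x ^ (-2 + 4 * κ) * Real.exp (-(c * x / q)) ^ 2)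
    ring
  have hfour : ∀ y ∈ S, ‖F y s‖ ^ 4 ≤
      C1 ^ 2 * T ^ (2 * k1) * X ^ (2 * κ) * (1 / (2 * κ)) * ∫ x in Ioi (1 : ℝ),
        ‖Sc y.2 x‖ ^ 2 * ‖F y s‖ ^ 2 *
          (x ^ (-2 + 4 * κ) * Real.exp (-(c * x / q)) ^ 2) := by
    intro y hy
    have hIQ := hF.rq y hy
    have hch := hF.ch y hy
    have hDX : (y.1 : ℝ) * (f y : ℝ) ^ 2 ≤ X := (hF.q y hy).2
    obtain ⟨h1, h2⟩ := hS (K y.1) (σ y.1) (σ' y.1) y.1 (f y) (κ' y) (ν y) y.2 hIQ hch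
    obtain ⟨hi, hb⟩ := hP (K y.1) (σ y.1) (σ' y.1) y.1 (f y) (κ' y) (ν y) y.2 (F y) hIQ hch
      (hF.lf y hy) s κ hs hκle
    obtain ⟨Ty, hTy⟩ : ∃ Ty, Ty = 1 + |s.im| + |ν y| := ⟨_, rfl⟩
    have hTyT : Ty ≤ T := by rw [hTy, hT]; linarith [hF.nu y hy]
    have hTy0 : 0 < Ty := by rw [hTy]; linarith [abs_nonneg s.im, abs_nonneg (ν y)]
    rw [← hTy] at hi hb
    have hD0 : (0 : ℝ) < (y.1 : ℝ) := by exact_mod_cast hIQ.pos
    have hf0 : (0 : ℝ) < (f y : ℝ) := by exact_mod_cast hch.pos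
    have hL0 : (0 : ℝ) < (y.1 : ℝ) * (f y : ℝ) ^ 2 := by positivity
    have hq' : 0 < (f y : ℝ) * Real.sqrt (y.1 : ℝ) * Ty ^ j := by positivity
    have hsq : (f y : ℝ) * Real.sqrt (y.1 : ℝ) ≤ Real.sqrt X := by
      have e0 : (f y : ℝ) * Real.sqrt (y.1 : ℝ) =
          Real.sqrt ((y.1 : ℝ) * (f y : ℝ) ^ 2) := by
        rw [Real.sqrt_mul hD0.le, Real.sqrt_sq hf0.le, mul_comm]
      rw [e0]
      exact Real.sqrt_le_sqrt hDX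
    have hqq : (f y : ℝ) * Real.sqrt (y.1 : ℝ) * Ty ^ j ≤ q := by
      rw [hq]
      exact mul_le_mul hsq (pow_le_pow_left₀ hTy0.le hTyT j) (by positivity) (by positivity)
    have h3 := sq_le h1 h2 hκpos hc hq' hqq hi
    have e1 : ∫ x in Ioi (1 : ℝ), ‖Sc y.2 x‖ ^ 2 * ‖F y s‖ ^ 2 *
        (x ^ (-2 + 4 * κ) * Real.exp (-(c * x / q)) ^ 2) = ‖F y s‖ ^ 2 *
        ∫ x in Ioi (1 : ℝ), ‖Sc y.2 x‖ ^ 2 *
          (x ^ (-2 + 4 * κ) * Real.exp (-(c * x / q)) ^ 2) := by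
      rw [← integral_const_mul]
      refine integral_congr_ae (Eventually.of_forall fun x => ?_)
      show ‖Sc y.2 x‖ ^ 2 * ‖F y s‖ ^ 2 *
        (x ^ (-2 + 4 * κ) * Real.exp (-(c * x / q)) ^ 2) = ‖F y s‖ ^ 2 *
        (‖Sc y.2 x‖ ^ 2 * (x ^ (-2 + 4 * κ) * Real.exp (-(c * x / q)) ^ 2))
      ring
    rw [e1]
    set J := ∫ x in Ioi (1 : ℝ), ‖Sc y.2 x‖ ^ 2 *
          (x ^ (-2 + 4 * κ) * Real.exp (-(c * x / q)) ^ 2) with hJ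
    set I := ∫ x in Ioi (1 : ℝ), ‖Sc y.2 x‖ * x ^ (-(3 / 2) + κ) *
      Real.exp (-(c * x / ((f y : ℝ) * Real.sqrt (y.1 : ℝ) * Ty ^ j))) with hI
    have hI0 : 0 ≤ I := by
      rw [hI]
      refine setIntegral_nonneg measurableSet_Ioi fun x hx => ?_
      have hx0 : (0 : ℝ) < x := lt_trans zero_lt_one hx
      exact mul_nonneg (mul_nonneg (norm_nonneg _) (Real.rpow_nonneg hx0.le _))
        (Real.exp_pos _).le
    have h4 : ‖F y s‖ ^ 2 ≤ C1 ^ 2 * T ^ (2 * k1) * X ^ (2 * κ) * (1 / (2 * κ)) * J := by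
      have h5 : ((y.1 : ℝ) * (f y : ℝ) ^ 2) ^ κ ≤ X ^ κ :=
        Real.rpow_le_rpow hL0.le hDX hκpos.le
      have h6 : (((y.1 : ℝ) * (f y : ℝ) ^ 2) ^ κ) ^ 2 ≤ X ^ (2 * κ) := by
        have h7 : X ^ (2 * κ) = (X ^ κ) ^ 2 := by
          rw [mul_comm, Real.rpow_mul hX0.le]
          norm_num
        rw [h7]
        exact pow_le_pow_left₀ (Real.rpow_nonneg hL0.le _) h5 2
      have h8 : Ty ^ (2 * k1) ≤ T ^ (2 * k1) := pow_le_pow_left₀ hTy0.le hTyT _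
      calc ‖F y s‖ ^ 2 ≤ (C1 * Ty ^ k1 * ((y.1 : ℝ) * (f y : ℝ) ^ 2) ^ κ * I) ^ 2 :=
            pow_le_pow_left₀ (norm_nonneg _) hb 2
        _ = C1 ^ 2 * Ty ^ (2 * k1) * (((y.1 : ℝ) * (f y : ℝ) ^ 2) ^ κ) ^ 2 * I ^ 2 := by ring
        _ ≤ C1 ^ 2 * T ^ (2 * k1) * X ^ (2 * κ) * (1 / (2 * κ) * J) := by
            refine mul_le_mul ?_ h3 (sq_nonneg _) (by positivity)
            exact mul_le_mul (mul_le_mul_of_nonneg_left h8 (by positivity)) h6 (by positivity)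
              (by positivity)
        _ = C1 ^ 2 * T ^ (2 * k1) * X ^ (2 * κ) * (1 / (2 * κ)) * J := by ring
    calc ‖F y s‖ ^ 4 = ‖F y s‖ ^ 2 * ‖F y s‖ ^ 2 := by ring
      _ ≤ ‖F y s‖ ^ 2 * (C1 ^ 2 * T ^ (2 * k1) * X ^ (2 * κ) * (1 / (2 * κ)) * J) :=
          mul_le_mul_of_nonneg_left h4 (sq_nonneg _)
      _ = C1 ^ 2 * T ^ (2 * k1) * X ^ (2 * κ) * (1 / (2 * κ)) * (‖F y s‖ ^ 2 * J) := by ring
  have hA0 : 0 ≤ C1 ^ 2 * T ^ (2 * k1) * X ^ (2 * κ) * (1 / (2 * κ)) := by positivity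
  have hsum : ∑ y ∈ S, ‖F y s‖ ^ 4 ≤
      C1 ^ 2 * T ^ (2 * k1) * X ^ (2 * κ) * (1 / (2 * κ)) * ∫ x in Ioi (1 : ℝ),
        ∑ y ∈ S, ‖Sc y.2 x‖ ^ 2 * ‖F y s‖ ^ 2 *
          (x ^ (-2 + 4 * κ) * Real.exp (-(c * x / q)) ^ 2) := by
    rw [integral_finsetSum S (fun y hy => hint y hy), Finset.mul_sum]
    exact Finset.sum_le_sum fun y hy => hfour y hy
  have hw := gam_int hapos hc hq0
  have hw1 : IntegrableOn (fun x : ℝ => x ^ (a - 1) * Real.exp (-(c * x / q))) (Ioi 1) :=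
    hw.1.mono_set (Ioi_subset_Ioi zero_le_one)
  have hG : ∫ x in Ioi (1 : ℝ), ∑ y ∈ S, ‖Sc y.2 x‖ ^ 2 * ‖F y s‖ ^ 2 *
      (x ^ (-2 + 4 * κ) * Real.exp (-(c * x / q)) ^ 2) ≤
      C2 * T ^ k2 * X ^ (3 / 2 + ε / 3) * ((q / c) ^ a * Real.Gamma a) := by
    have h1 : ∫ x in Ioi (1 : ℝ), ∑ y ∈ S, ‖Sc y.2 x‖ ^ 2 * ‖F y s‖ ^ 2 *
        (x ^ (-2 + 4 * κ) * Real.exp (-(c * x / q)) ^ 2) ≤
        ∫ x in Ioi (1 : ℝ), C2 * T ^ k2 * X ^ (3 / 2 + ε / 3) *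
          (x ^ (a - 1) * Real.exp (-(c * x / q))) := by
      refine setIntegral_mono_on
        (integrable_finsetSum _ fun y hy => hint y hy)
        (hw1.const_mul _) measurableSet_Ioi fun x hx => ?_
      have hx1 : (1 : ℝ) < x := hx
      have hx0 : (0 : ℝ) < x := by linarith
      have e1 : ∑ y ∈ S, ‖Sc y.2 x‖ ^ 2 * ‖F y s‖ ^ 2 *
          (x ^ (-2 + 4 * κ) * Real.exp (-(c * x / q)) ^ 2) =
          ((∑ y ∈ S, ‖Sc y.2 x‖ ^ 2 * ‖F y s‖ ^ 2) *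
            Real.exp (-(c * x / q))) * (x ^ (-2 + 4 * κ) * Real.exp (-(c * x / q))) := by
        rw [mul_assoc, Finset.sum_mul]
        refine Finset.sum_congr rfl fun y _ => ?_
        ring
      rw [e1]
      have h2 : 0 ≤ x ^ (-2 + 4 * κ) * Real.exp (-(c * x / q)) :=
        mul_nonneg (Real.rpow_nonneg hx0.le _) (Real.exp_pos _).le
      refine (mul_le_mul_of_nonneg_right (hM3 x hx1.le) h2).trans (le_of_eq ?_)
      have h3 : x ^ (a - 1) = x ^ (1 + ε / 3) * x ^ (-2 + 4 * κ) := by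
        rw [← Real.rpow_add hx0, ha]
        congr 1
        ring
      rw [h3]
      ring
    refine h1.trans ?_
    rw [integral_const_mul]
    refine mul_le_mul_of_nonneg_left ?_ (by positivity)
    rw [← hw.2]
    refine setIntegral_mono_set hw.1 ?_ (Ioi_subset_Ioi zero_le_one).eventuallyLE
    refine (ae_restrict_iff' measurableSet_Ioi).2 (Eventually.of_forall fun x hx => ?_)
    have hx0 : (0 : ℝ) < x := hx
    exact mul_nonneg (Real.rpow_nonneg hx0.le _) (Real.exp_pos _).le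
  refine hsum.trans ((mul_le_mul_of_nonneg_left hG hA0).trans ?_)
  have hTj : 1 ≤ T ^ j := one_le_pow₀ hT1
  have e1 : (q / c) ^ a = X ^ (a / 2) * (T ^ j) ^ a * c⁻¹ ^ a := by
    rw [hq, div_eq_mul_inv, Real.mul_rpow (by positivity) (by positivity),
      Real.mul_rpow (by positivity) (by positivity), Real.sqrt_eq_rpow,
      ← Real.rpow_mul hX0.le]
    congr 3
    ring
  have e2 : (T ^ j) ^ a ≤ T ^ (j * ⌈a⌉₊) := by
    rw [pow_mul, ← Real.rpow_natCast (T ^ j) ⌈a⌉₊]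
    exact Real.rpow_le_rpow_of_exponent_le hTj (Nat.le_ceil a)
  have e3 : X ^ (2 * κ) * X ^ (3 / 2 + ε / 3) * X ^ (a / 2) ≤ X ^ (3 / 2 + ε) := by
    rw [← Real.rpow_add hX0, ← Real.rpow_add hX0]
    refine Real.rpow_le_rpow_of_exponent_le hX ?_
    rw [ha]
    linarith
  calc C1 ^ 2 * T ^ (2 * k1) * X ^ (2 * κ) * (1 / (2 * κ)) *
        (C2 * T ^ k2 * X ^ (3 / 2 + ε / 3) * ((q / c) ^ a * Real.Gamma a))
      = C1 ^ 2 * (1 / (2 * κ)) * C2 * (c⁻¹ ^ a * Real.Gamma a) *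
        (T ^ (2 * k1) * T ^ k2 * (T ^ j) ^ a) *
          (X ^ (2 * κ) * X ^ (3 / 2 + ε / 3) * X ^ (a / 2)) := by
        rw [e1]
        ring
    _ ≤ C1 ^ 2 * (1 / (2 * κ)) * C2 * (c⁻¹ ^ a * Real.Gamma a) *
        (T ^ (2 * k1) * T ^ k2 * T ^ (j * ⌈a⌉₊)) * X ^ (3 / 2 + ε) := by
        refine mul_le_mul ?_ e3 (by positivity) (by positivity)
        refine mul_le_mul_of_nonneg_left ?_ (by positivity)
        exact mul_le_mul_of_nonneg_left e2 (by positivity)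
    _ = C1 ^ 2 * (1 / (2 * κ)) * C2 * (c⁻¹ ^ a * Real.Gamma a) *
        T ^ (2 * k1 + k2 + j * ⌈a⌉₊) * X ^ (3 / 2 + ε) := by
        rw [pow_add, pow_add]

end Pool.Agent.H54.DF
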